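import Pool.Agent.Helper31.BQ.Stmts2

set_option autoImplicit false

namespace Pool.Agent.Helper15.BQ

open Filter Topology Pool.Agent.Helper31.BQ

section
variable {H : Type} [NormedAddCommGroup H] [InnerProductSpace ℝ H]
  (J : ℕ → H →L[ℝ] H) (σ : ∀ k, Fin (2 ^ k) → GG k → ℝ) (τ : ∀ k, Fin (2 ^ (k + 1)) → GG k → ℝ)

/-- coordinates as continuous linear maps -/
noncomputable def cl (k : ℕ) (g : GG k) : EE J σ τ →L[ℝ] H :=
  (ContinuousLinearMap.proj (R := ℝ) (φ := fun _ : GG k => H) g).comp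
    ((lp.evalCLM ℝ (fun k : ℕ => (GG k → H)) 2 k).comp (EE J σ τ).subtypeL)

theorem cl_apply (k : ℕ) (g : GG k) (x : EE J σ τ) : cl J σ τ k g x = cd (x : WW H) k g := rfl

theorem sqs (x : WW H) : HasSum (fun k => ‖(x : ∀ k, GG k → H) k‖ ^ 2) (‖x‖ ^ 2) := by
  have h := lp.hasSum_norm (p := 2) (by norm_num) x
  simpa using h

theorem sqle (x : WW H) (K : ℕ) :
    ∑ k ∈ Finset.range K, ‖(x : ∀ k, GG k → H) k‖ ^ 2 ≤ ‖x‖ ^ 2 :=
  sum_le_hasSum _ (fun _ _ => sq_nonneg _) (sqs x)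

variable (p : ℕ → H →L[ℝ] H)

/-- the map with kernel `M n` -/
noncomputable def L (n : ℕ) : EE J σ τ →ₗ[ℝ]
    ((i : (Σ k : Fin n, GG k.1)) → LinearMap.range (p n : H →ₗ[ℝ] H)) :=
  LinearMap.pi fun i => ((p n : H →ₗ[ℝ] H).rangeRestrict).comp
    ((cl J σ τ i.1.1 i.2 : EE J σ τ →L[ℝ] H) : EE J σ τ →ₗ[ℝ] H)

/-- the subspaces -/
noncomputable def Ms (n : ℕ) : Submodule ℝ (EE J σ τ) := LinearMap.ker (L J σ τ p n)

theorem mem_Ms (n : ℕ) (x : EE J σ τ) :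
    x ∈ Ms J σ τ p n ↔ ∀ k, k < n → ∀ g : GG k, p n (cd (x : WW H) k g) = 0 := by
  unfold Ms
  rw [LinearMap.mem_ker]
  constructor
  · intro h k hk g
    have h1 := congrFun h ⟨⟨k, hk⟩, g⟩
    exact congrArg Subtype.val h1
  · intro h
    funext i
    exact Subtype.ext (h i.1.1 i.1.2 i.2)

theorem pn_le {n : ℕ} (hp : ‖p n‖ ≤ 1) {k : ℕ} (y : GG k → H) :
    ‖fun g => p n (y g)‖ ≤ ‖y‖ := by
  refine (pi_norm_le_iff_of_nonneg (norm_nonneg _)).2 fun g => ?_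
  calc ‖p n (y g)‖ ≤ ‖p n‖ * ‖y g‖ := (p n).le_opNorm _
    _ ≤ 1 * ‖y g‖ := by gcongr
    _ = ‖y g‖ := one_mul _
    _ ≤ ‖y‖ := norm_le_pi_norm y g

theorem norming (hp1 : ∀ n, ‖p n‖ ≤ 1) (hp5 : ∀ x, Tendsto (fun n => p n x) atTop (𝓝 x))
    (x : EE J σ τ) (ε : ℝ) (hε : 0 < ε) :
    ∃ n, ∀ y : EE J σ τ, x - y ∈ Ms J σ τ p n → ‖x‖ - ε ≤ ‖y‖ := by
  by_cases h0 : ‖x‖ - ε ≤ 0
  · exact ⟨0, fun y _ => h0.trans (norm_nonneg _)⟩
  push Not at h0
  have h1 : (‖x‖ - ε) ^ 2 < ‖(x : WW H)‖ ^ 2 := by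
    have : ‖(x : WW H)‖ = ‖x‖ := rfl
    rw [this]
    exact pow_lt_pow_left₀ (by linarith) h0.le two_ne_zero
  obtain ⟨K, hK⟩ := ((sqs (x : WW H)).tendsto_sum_nat.eventually (lt_mem_nhds h1)).exists
  have h2 : Tendsto (fun n => ∑ k ∈ Finset.range K,
      ‖fun g => p n (cd (x : WW H) k g)‖ ^ 2) atTop
      (𝓝 (∑ k ∈ Finset.range K, ‖((x : WW H) : ∀ k, GG k → H) k‖ ^ 2)) := by
    refine tendsto_finset_sum _ fun k _ => ?_
    refine Tendsto.pow ?_ 2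
    refine Tendsto.norm ?_
    exact tendsto_pi_nhds.2 fun g => hp5 _
  obtain ⟨n, hn, hnK⟩ := ((h2.eventually (lt_mem_nhds hK)).and (eventually_ge_atTop K)).exists
  refine ⟨n, fun y hy => ?_⟩
  rw [mem_Ms] at hy
  have h3 : ∀ k ∈ Finset.range K, (fun g => p n (cd (x : WW H) k g)) =
      (fun g => p n (cd (y : WW H) k g)) := by
    intro k hk
    funext g
    have h4 := hy k ((Finset.mem_range.1 hk).trans_le hnK) g
    have h5 : cd ((x - y : EE J σ τ) : WW H) k g = cd (x : WW H) k g - cd (y : WW H) k g := rfl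
    rw [h5, map_sub, sub_eq_zero] at h4
    exact h4
  have h6 : ∑ k ∈ Finset.range K, ‖fun g => p n (cd (x : WW H) k g)‖ ^ 2 ≤ ‖(y : WW H)‖ ^ 2 := by
    refine le_trans (Finset.sum_le_sum fun k hk => ?_) (sqle (y : WW H) K)
    rw [h3 k hk]
    exact pow_le_pow_left₀ (norm_nonneg _) (pn_le p (hp1 n) _) 2
  have h7 : (‖x‖ - ε) ^ 2 < ‖y‖ ^ 2 := lt_of_lt_of_le hn h6
  exact (lt_of_pow_lt_pow_left₀ 2 (norm_nonneg _) h7).le

theorem compl [CompleteSpace H] (hWK : ST_WK) (hp1 : ∀ n, ‖p n‖ ≤ 1)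
    (hp2 : ∀ n x y, inner ℝ (p n x) y = inner ℝ x (p n y))
    (hp3 : ∀ n m x, n ≤ m → p n (p m x) = p n x)
    (hp4 : ∀ n m x, n ≤ m → p m (p n x) = p n x)
    (hp5 : ∀ x, Tendsto (fun n => p n x) atTop (𝓝 x))
    (x : ℕ → EE J σ τ) (C : ℝ) (hx : ∀ j, ‖x j‖ ≤ C)
    (hv : ∀ m, ∃ v : EE J σ τ ⧸ Ms J σ τ p m,
      Tendsto (fun j => (Ms J σ τ p m).mkQ (x j)) atTop (𝓝 v)) :
    ∃ y : EE J σ τ, ∀ m, Tendsto (fun j => (Ms J σ τ p m).mkQ (x j)) atTop
      (𝓝 ((Ms J σ τ p m).mkQ y)) := by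
  -- lifted coordinate maps
  have hker : ∀ (m k : ℕ) (g : GG k), k < m →
      Ms J σ τ p m ≤ ((p m).comp (cl J σ τ k g)).ker := by
    intro m k g hk z hz
    rw [mem_Ms] at hz
    exact hz k hk g
  have hconv : ∀ (k : ℕ) (g : GG k) (m : ℕ), ∃ v : H,
      Tendsto (fun j => p m (cd (x j : WW H) k g)) atTop (𝓝 v) := by
    intro k g m
    obtain ⟨v, hv⟩ := hv (max m (k + 1))
    have hk : k < max m (k + 1) := (Nat.lt_succ_self k).trans_le (le_max_right _ _)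
    let F := (Ms J σ τ p (max m (k + 1))).liftQL ((p (max m (k + 1))).comp (cl J σ τ k g))
      (hker _ k g hk)
    refine ⟨p m (F v), ?_⟩
    have h1 : Tendsto (fun j => p m (F ((Ms J σ τ p (max m (k + 1))).mkQ (x j)))) atTop
        (𝓝 (p m (F v))) := ((p m).continuous.comp F.continuous).continuousAt.tendsto.comp hv
    refine h1.congr fun j => ?_
    change p m (p (max m (k + 1)) (cd (x j : WW H) k g)) = _
    exact hp3 _ _ _ (le_max_left _ _)
  have hcb : ∀ (k : ℕ) (g : GG k) (j : ℕ), ‖cd (x j : WW H) k g‖ ≤ C := by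
    intro k g j
    refine le_trans (norm_le_pi_norm (((x j : WW H) : ∀ k, GG k → H) k) g) ?_
    exact (lp.norm_apply_le_norm (by norm_num) (x j : WW H) k).trans (hx j)
  have hy : ∀ (k : ℕ) (g : GG k), ∃ y : H,
      (∀ z, Tendsto (fun j => inner ℝ z (cd (x j : WW H) k g)) atTop (𝓝 (inner ℝ z y))) ∧
      ∀ m, Tendsto (fun j => p m (cd (x j : WW H) k g)) atTop (𝓝 (p m y)) := by
    intro k g
    exact hWK H p hp1 hp2 hp3 hp4 hp5 (fun j => cd (x j : WW H) k g) C (hcb k g) (hconv k g)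
  choose y hyw hyp using hy
  have hC : 0 ≤ C := (norm_nonneg _).trans (hx 0)
  have hsum : ∀ K : ℕ, ∑ k ∈ Finset.range K, ‖(y k : GG k → H)‖ ^ 2 ≤ C ^ 2 := by
    intro K
    have h1 : ∀ m, ∑ k ∈ Finset.range K, ‖fun g => p m (y k g)‖ ^ 2 ≤ C ^ 2 := by
      intro m
      have h2 : Tendsto (fun j => ∑ k ∈ Finset.range K,
          ‖fun g => p m (cd (x j : WW H) k g)‖ ^ 2) atTop
          (𝓝 (∑ k ∈ Finset.range K, ‖fun g => p m (y k g)‖ ^ 2)) := by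
        refine tendsto_finset_sum _ fun k _ => ?_
        refine Tendsto.pow ?_ 2
        refine Tendsto.norm ?_
        exact tendsto_pi_nhds.2 fun g => hyp k g m
      refine le_of_tendsto' h2 fun j => ?_
      refine le_trans (Finset.sum_le_sum fun k _ => ?_)
        ((sqle (x j : WW H) K).trans (pow_le_pow_left₀ (norm_nonneg _) (hx j) 2))
      exact pow_le_pow_left₀ (norm_nonneg _) (pn_le p (hp1 m) _) 2
    have h3 : Tendsto (fun m => ∑ k ∈ Finset.range K, ‖fun g => p m (y k g)‖ ^ 2) atTop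
        (𝓝 (∑ k ∈ Finset.range K, ‖(y k : GG k → H)‖ ^ 2)) := by
      refine tendsto_finset_sum _ fun k _ => ?_
      refine Tendsto.pow ?_ 2
      refine Tendsto.norm ?_
      exact tendsto_pi_nhds.2 fun g => hp5 _
    exact le_of_tendsto' h3 h1
  have hmem : Memℓp (fun k => (y k : GG k → H)) 2 := by
    refine memℓp_gen' (C := C ^ 2) fun s => ?_
    obtain ⟨K, hK⟩ := s.exists_nat_subset_range
    refine le_trans ?_ (hsum K)
    have h1 : ∑ i ∈ s, ‖(y i : GG i → H)‖ ^ (2 : ENNReal).toReal =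
        ∑ i ∈ s, ‖(y i : GG i → H)‖ ^ 2 := by
      refine Finset.sum_congr rfl fun i _ => ?_
      simp
    rw [h1]
    exact Finset.sum_le_sum_of_subset_of_nonneg hK fun _ _ _ => sq_nonneg _
  have hcon : (⟨fun k => (y k : GG k → H), hmem⟩ : WW H) ∈ EE J σ τ := by
    intro k j
    change ((2 : ℝ) ^ (k + 2))⁻¹ • ∑ g, τ k j g • J k (y k g) =
      ((2 : ℝ) ^ (k + 3))⁻¹ • ∑ h, σ (k + 1) j h • J (k + 1) (y (k + 1) h)
    refine ext_inner_left ℝ fun z => ?_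
    have hlim : ∀ (l : ℕ) (g : GG l), Tendsto (fun i => inner ℝ z (J l (cd (x i : WW H) l g)))
        atTop (𝓝 (inner ℝ z (J l (y l g)))) := by
      intro l g
      have h1 := hyw l g (ContinuousLinearMap.adjoint (J l) z)
      simpa only [ContinuousLinearMap.adjoint_inner_left] using h1
    have hL : Tendsto (fun i => inner ℝ z (((2 : ℝ) ^ (k + 2))⁻¹ •
        ∑ g, τ k j g • J k (cd (x i : WW H) k g))) atTop
        (𝓝 (inner ℝ z (((2 : ℝ) ^ (k + 2))⁻¹ • ∑ g, τ k j g • J k (y k g)))) := by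
      simp only [inner_smul_right, inner_sum]
      exact (tendsto_finset_sum _ fun g _ => (hlim k g).const_mul _).const_mul _
    have hR : Tendsto (fun i => inner ℝ z (((2 : ℝ) ^ (k + 3))⁻¹ •
        ∑ h, σ (k + 1) j h • J (k + 1) (cd (x i : WW H) (k + 1) h))) atTop
        (𝓝 (inner ℝ z (((2 : ℝ) ^ (k + 3))⁻¹ •
          ∑ h, σ (k + 1) j h • J (k + 1) (y (k + 1) h)))) := by
      simp only [inner_smul_right, inner_sum]
      exact (tendsto_finset_sum _ fun g _ => (hlim (k + 1) g).const_mul _).const_mul _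
    refine tendsto_nhds_unique (hL.congr fun i => ?_) hR
    rw [show ((2 : ℝ) ^ (k + 2))⁻¹ • ∑ g, τ k j g • J k (cd (x i : WW H) k g) =
      ((2 : ℝ) ^ (k + 3))⁻¹ • ∑ h, σ (k + 1) j h • J (k + 1) (cd (x i : WW H) (k + 1) h) from
        (x i).2 k j]
  refine ⟨⟨_, hcon⟩, fun m => ?_⟩
  obtain ⟨v, hv⟩ := hv m
  have hvy : v = (Ms J σ τ p m).mkQ ⟨_, hcon⟩ := by
    obtain ⟨w, rfl⟩ := (Ms J σ τ p m).mkQ_surjective v
    rw [← sub_eq_zero, ← map_sub, Submodule.mkQ_apply, Submodule.Quotient.mk_eq_zero, mem_Ms]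
    intro k hk g
    let F := (Ms J σ τ p m).liftQL ((p m).comp (cl J σ τ k g)) (hker _ k g hk)
    have h1 : Tendsto (fun j => F ((Ms J σ τ p m).mkQ (x j))) atTop
        (𝓝 (F ((Ms J σ τ p m).mkQ w))) := F.continuous.continuousAt.tendsto.comp hv
    have h2 : Tendsto (fun j => F ((Ms J σ τ p m).mkQ (x j))) atTop (𝓝 (p m (y k g))) :=
      (hyp k g m).congr fun j => rfl
    have h3 : p m (cd (w : WW H) k g) = p m (y k g) := tendsto_nhds_unique h1 h2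
    have h5 : cd ((w - ⟨⟨fun k => (y k : GG k → H), hmem⟩, hcon⟩ : EE J σ τ) : WW H) k g =
      cd (w : WW H) k g - y k g := rfl
    rw [h5, map_sub, h3, sub_self]
  rw [← hvy]
  exact hv

end

theorem PE (hHP : ST_HP) (hWK : ST_WK) : ST_PE := by
  intro H _ _ _ _ J σ τ
  obtain ⟨p, hpf, hp1, hp2, hp3, hp4, hp5⟩ := hHP H
  refine ⟨Ms J σ τ p, ?_, ?_, ?_, ?_, ?_⟩
  · intro n m hnm x hx
    rw [mem_Ms] at hx ⊢
    intro k hk g
    rw [← hp3 n m _ hnm, hx k (hk.trans_le hnm) g, map_zero]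
  · intro n
    have h1 : ((Ms J σ τ p n : Submodule ℝ (EE J σ τ)) : Set (EE J σ τ)) =
        ⋂ i : (Σ k : Fin n, GG k.1), {x | p n (cl J σ τ i.1.1 i.2 x) = 0} := by
      ext x
      simp only [SetLike.mem_coe, Set.mem_iInter, Set.mem_setOf_eq]
      rw [mem_Ms]
      exact ⟨fun h i => h i.1.1 i.1.2 i.2, fun h k hk g => h ⟨⟨k, hk⟩, g⟩⟩
    rw [h1]
    refine isClosed_iInter fun i => ?_
    exact isClosed_eq ((p n).continuous.comp (cl J σ τ i.1.1 i.2).continuous) continuous_const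
  · intro n
    have := hpf n
    exact LinearEquiv.finiteDimensional (L J σ τ p n).quotKerEquivRange.symm
  · exact norming J σ τ p hp1 hp5
  · exact compl J σ τ p hWK hp1 hp2 hp3 hp4 hp5

end Pool.Agent.Helper15.BQ
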